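import Pool.Agent.Q255.CU.Stm

/-! Project CU (helper255), jobs SYT and WGT (helper38): the random cubic function. -/

set_option autoImplicit false

namespace Pool.Agent.Q38.CU

open MeasureTheory Filter Topology Finset
open Pool.Agent.Q255.HC (Sys ex)
open Pool.Agent.Q255.CU

/-- the additive character -/
noncomputable def ψ : AddChar (ZMod 3) ℂ := ZMod.stdAddChar

theorem norm_psi (x : ZMod 3) : ‖ψ x‖ = 1 := by
  unfold ψ
  rw [ZMod.stdAddChar_apply]
  exact Circle.norm_coe _

theorem psi_mul (k : ℕ) (x : ZMod 3) : ψ ((k : ZMod 3) * x) = ψ x ^ k := by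
  rw [← nsmul_eq_mul, AddChar.map_nsmul_eq_pow]

theorem psi_cube (x : ZMod 3) : ψ x ^ 3 = 1 := by
  have h := psi_mul 3 x
  have h3 : ((3 : ℕ) : ZMod 3) = 0 := rfl
  rw [h3, zero_mul, AddChar.map_zero_eq_one] at h
  exact h.symm

instance : IsProbabilityMeasure m3 := by
  unfold m3
  infer_instance

theorem mean_psi {j : ZMod 3} (hj : j ≠ 0) : ∫ x, ψ (j * x) ∂m3 = 0 := by
  unfold m3
  rw [PMF.integral_eq_sum]
  have h1 : ∀ x : ZMod 3, ((PMF.uniformOfFintype (ZMod 3)) x).toReal • ψ (j * x) =
      ((3 : ℝ)⁻¹ : ℝ) • ψ (x * j) := by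
    intro x
    rw [PMF.uniformOfFintype_apply, ZMod.card, mul_comm]
    simp
  simp only [h1]
  have h2 : ∑ x : ZMod 3, ψ (x * j) = 0 := by
    unfold ψ
    rw [AddChar.sum_mulShift j (ZMod.isPrimitive_stdAddChar 3), if_neg hj]
    simp
  rw [← smul_sum, h2, smul_zero]

theorem sys : Sys m3 e3 v3 := by
  refine ⟨fun j => measurable_of_finite _, fun j x => (norm_psi _).le, fun x => ?_, fun j hj => ?_,
    fun j => by unfold v3; norm_num, fun S hS => ?_⟩
  · unfold e3
    rw [zero_mul, AddChar.map_zero_eq_one]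
  · exact mean_psi hj
  · unfold v3
    rw [sum_const, nsmul_eq_mul]
    have h1 : S.card ≤ 2 := by
      have h2 : S ⊆ univ.erase (0 : ZMod 3) := fun x hx =>
        mem_erase.2 ⟨fun h => hS (h ▸ hx), mem_univ _⟩
      have h3 := card_le_card h2
      rw [card_erase_of_mem (mem_univ _), card_univ, ZMod.card] at h3
      exact h3
    have h2 : (S.card : ℝ) ≤ 2 := by exact_mod_cast h1
    linarith

theorem f3_eq (ω : ℕ → ZMod 3) (n : ℕ) : f3 ω n = n.factorization.prod fun p k => ψ (ω p) ^ k := by
  unfold f3 Finsupp.prod ψ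
  rw [Nat.support_factorization]

theorem fc_apply (n p : ℕ) : fc n p = (n.factorization p : ZMod 3) := by
  unfold fc
  rw [Finsupp.mapRange_apply]

theorem f3_ex (ω : ℕ → ZMod 3) (n : ℕ) : f3 ω n = ex e3 (fc n) ω := by
  rw [f3_eq]
  unfold ex Finsupp.prod
  have hsub : (fc n).support ⊆ n.factorization.support := by
    intro p hp
    rw [Finsupp.mem_support_iff] at hp ⊢
    intro h
    apply hp
    rw [fc_apply, h]
    rfl
  rw [← prod_subset hsub]
  · refine prod_congr rfl fun p _ => ?_
    unfold e3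
    rw [fc_apply]
    exact (psi_mul _ _).symm
  · intro p _ hp
    rw [Finsupp.notMem_support_iff, fc_apply] at hp
    show ψ (ω p) ^ n.factorization p = 1
    rw [← psi_mul, hp, zero_mul, AddChar.map_zero_eq_one]

theorem f3_mul (ω : ℕ → ZMod 3) (m n : ℕ) (hm : 1 ≤ m) (hn : 1 ≤ n) :
    f3 ω (m * n) = f3 ω m * f3 ω n := by
  rw [f3_eq, f3_eq, f3_eq, Nat.factorization_mul (by omega) (by omega)]
  apply Finsupp.prod_add_index'
  · intro p
    exact pow_zero _
  · intro p a b
    exact pow_add _ _ _

theorem f3_norm (ω : ℕ → ZMod 3) (n : ℕ) : ‖f3 ω n‖ = 1 := by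
  unfold f3
  rw [norm_prod]
  refine prod_eq_one fun p _ => ?_
  rw [norm_pow]
  have := norm_psi (ω p)
  unfold ψ at this
  rw [this, one_pow]

theorem f3_cube (ω : ℕ → ZMod 3) (n : ℕ) : f3 ω n ^ 3 = 1 := by
  unfold f3
  rw [← prod_pow]
  refine prod_eq_one fun p _ => ?_
  rw [← pow_mul, mul_comm, pow_mul]
  have := psi_cube (ω p)
  unfold ψ at this
  rw [this, one_pow]

theorem f3_meas (n : ℕ) : Measurable fun ω' : ℕ → ZMod 3 => f3 ω' n := by
  unfold f3
  refine Finset.measurable_fun_prod _ fun p _ => ?_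
  have h1 : Measurable fun x : ZMod 3 => (ZMod.stdAddChar x : ℂ) := measurable_of_finite _
  exact (h1.comp (measurable_pi_apply p)).pow_const _

theorem orth (m n : ℕ) : ∫ ω, f3 ω m * star (f3 ω n) ∂(Measure.infinitePi fun _ : ℕ => m3) =
    if fc m = fc n then 1 else 0 := by
  split_ifs with h
  · have h1 : ∀ ω : ℕ → ZMod 3, f3 ω m * star (f3 ω n) = 1 := by
      intro ω
      rw [f3_ex ω m, h, ← f3_ex ω n]
      have h2 := f3_norm ω n
      rw [Complex.star_def, Complex.mul_conj, Complex.normSq_eq_norm_sq, h2]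
      norm_num
    simp only [h1]
    simp
  · set s : Finset ℕ := (fc m).support ∪ (fc n).support with hs
    set g : ℕ → ZMod 3 := fun p => fc m p - fc n p with hg
    have hext : ∀ (k : ℕ), (fc k).support ⊆ s → ∀ ω : ℕ → ZMod 3,
        f3 ω k = ∏ p ∈ s, ψ (fc k p * ω p) := by
      intro k hk ω
      rw [f3_ex]
      unfold ex
      apply prod_subset hk
      intro p _ hp
      rw [Finsupp.notMem_support_iff] at hp
      unfold e3
      rw [hp, zero_mul, AddChar.map_zero_eq_one]
    have h1 : ∀ ω : ℕ → ZMod 3, f3 ω m * star (f3 ω n) = ∏ p ∈ s, ψ (g p * ω p) := by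
      intro ω
      rw [hext m subset_union_left, hext n subset_union_right, Complex.star_def, map_prod,
        ← prod_mul_distrib]
      refine prod_congr rfl fun p _ => ?_
      rw [hg]
      simp only
      rw [sub_mul, AddChar.map_sub_eq_div]
      have h2 := norm_psi (fc n p * ω p)
      have h3 : ψ (fc n p * ω p) * (starRingEnd ℂ) (ψ (fc n p * ω p)) = 1 := by
        rw [Complex.mul_conj, Complex.normSq_eq_norm_sq, h2]
        norm_num
      rw [eq_div_iff (left_ne_zero_of_mul_eq_one h3), mul_assoc, mul_comm _ (ψ (fc n p * ω p)), h3,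
        mul_one]
    simp only [h1]
    have h2 : ∀ ω : ℕ → ZMod 3, ∏ p ∈ s, ψ (g p * ω p) =
        (fun y : s → ZMod 3 => ∏ i : s, ψ (g i * y i)) (s.restrict ω) := by
      intro ω
      simp only [Finset.restrict]
      exact (Finset.prod_coe_sort s fun p => ψ (g p * ω p)).symm
    have h4 : ∫ y : s → ZMod 3, ∏ i : s, ψ (g i * y i) ∂(Measure.pi fun _ : s => m3) = 0 := by
      rw [integral_fintype_prod_eq_prod (fun (i : s) (y : ZMod 3) => ψ (g i * y))]
      obtain ⟨p, hp⟩ : ∃ p, fc m p ≠ fc n p := by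
        by_contra hcon
        push Not at hcon
        exact h (Finsupp.ext hcon)
      have hps : p ∈ s := by
        rw [hs, mem_union, Finsupp.mem_support_iff, Finsupp.mem_support_iff]
        by_contra hcon
        push Not at hcon
        exact hp (hcon.1.trans hcon.2.symm)
      apply prod_eq_zero (mem_univ (⟨p, hps⟩ : s))
      exact mean_psi (sub_ne_zero.2 hp)
    rw [← h4]
    exact (integral_congr_ae (ae_of_all _ h2)).trans
      (integral_restrict_infinitePi (μ := fun _ : ℕ => m3) (s := s)
        (f := fun y : s → ZMod 3 => ∏ i : s, ψ (g i * y i))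
        (measurable_of_finite _).aestronglyMeasurable)

theorem syt : S_SYT :=
  ⟨sys, fun ω n _ => f3_ex ω n, f3_mul, fun ω n => ⟨f3_norm ω n, f3_cube ω n, f3_meas n⟩,
    fun m n _ _ => orth m n⟩

theorem wgt : S_WGT := by
  classical
  intro K hK η hη
  set L : ℝ := K * 2 with hL
  have hL1 : 1 ≤ L := by
    rw [hL]
    linarith
  obtain ⟨M, hM⟩ := exists_nat_gt (L ^ (1 / η))
  refine ⟨L ^ M, by positivity, fun n hn => ?_⟩
  have h1 : ∏ p ∈ (fc n).support, (K * v3 (fc n p)) ≤ ∏ p ∈ n.primeFactors, L := by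
    unfold v3
    rw [prod_const, prod_const]
    apply pow_le_pow_right₀ hL1
    apply card_le_card
    intro p hp
    rw [Finsupp.mem_support_iff] at hp
    rw [← Nat.support_factorization, Finsupp.mem_support_iff]
    intro h
    apply hp
    rw [fc_apply, h]
    rfl
  refine h1.trans ?_
  have h2 : ∀ p ∈ n.primeFactors, L ≤ (if p < M then L else 1) * (p : ℝ) ^ η := by
    intro p hp
    have hp1 : 1 ≤ p := (Nat.prime_of_mem_primeFactors hp).one_lt.le
    have hp2 : (1 : ℝ) ≤ p := by exact_mod_cast hp1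
    split_ifs with h
    · exact le_mul_of_one_le_right (by linarith) (Real.one_le_rpow hp2 hη.le)
    · rw [one_mul]
      have h3 : L ^ (1 / η) ≤ p := by
        have : (M : ℝ) ≤ p := by exact_mod_cast not_lt.1 h
        linarith
      calc L = (L ^ (1 / η)) ^ η := by
            rw [← Real.rpow_mul (by linarith), one_div_mul_cancel hη.ne', Real.rpow_one]
        _ ≤ (p : ℝ) ^ η := Real.rpow_le_rpow (by positivity) h3 hη.le
  calc ∏ p ∈ n.primeFactors, L ≤ ∏ p ∈ n.primeFactors, ((if p < M then L else 1) * (p : ℝ) ^ η) :=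
        prod_le_prod (fun p _ => by linarith) h2
    _ = (∏ p ∈ n.primeFactors, (if p < M then L else 1)) * ∏ p ∈ n.primeFactors, (p : ℝ) ^ η :=
        prod_mul_distrib
    _ ≤ L ^ M * (n : ℝ) ^ η := by
        apply mul_le_mul
        · rw [prod_ite, prod_const, prod_const, one_pow, mul_one]
          apply pow_le_pow_right₀ hL1
          calc (n.primeFactors.filter fun p => p < M).card ≤ (range M).card := by
                apply card_le_card
                intro p hp
                exact mem_range.2 (mem_filter.1 hp).2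
            _ = M := card_range M
        · rw [Real.finsetProd_rpow _ _ (fun p _ => by positivity)]
          apply Real.rpow_le_rpow (by positivity) _ hη.le
          have h3 : ∏ p ∈ n.primeFactors, p ≤ n :=
            Nat.le_of_dvd (by omega) (Nat.prod_primeFactors_dvd n)
          rw [← Nat.cast_prod]
          exact_mod_cast h3
        · exact prod_nonneg fun p _ => by positivity
        · positivity

end Pool.Agent.Q38.CU
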